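import Mathlib

set_option autoImplicit false

/-!
Combinatorial core of the counterexample: a `IdxScheme` of size `ℵ₁` in which every finite closed
condition is realized uncountably often, its points, and the homogeneous point theorem.
-/

namespace Pool.Agent.helper61.BaseRes

open Set Cardinal

/-- An index set with finite sets `P γ` (sets declared to contain `γ`) and `N γ` (sets declared to
be disjoint from `γ`), closed under the obvious inferences, such that each finite consistent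
condition is realized uncountably often. -/
structure IdxScheme (I : Type) where
  P : I → Finset I
  N : I → Finset I
  P_trans : ∀ γ, ∀ α ∈ P γ, P α ⊆ P γ
  N_mono : ∀ γ, ∀ α ∈ P γ, N α ⊆ N γ
  P_irrefl : ∀ γ, γ ∉ P γ
  N_irrefl : ∀ γ, γ ∉ N γ
  disj : ∀ γ, Disjoint (P γ) (N γ)
  many : ∀ P₀ N₀ : Finset I, (∀ α ∈ P₀, P α ⊆ P₀) → (∀ α ∈ P₀, N α ⊆ N₀) → Disjoint P₀ N₀ →
    ¬ {γ | P γ = P₀ ∧ N γ = N₀}.Countable

/-- The raw good indices. -/
inductive Good {Ω : Type} (g : Ω → Finset Ω × Finset Ω) : Ω → Prop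
  | mk (γ : Ω) (hA : ∀ α ∈ (g γ).1, Good g α) (hB : ∀ α ∈ (g γ).2, Good g α)
      (h1 : ∀ α ∈ (g γ).1, (g α).1 ⊆ (g γ).1) (h2 : ∀ α ∈ (g γ).1, (g α).2 ⊆ (g γ).2)
      (h3 : Disjoint (g γ).1 (g γ).2) : Good g γ

theorem Good.irrefl1 {Ω : Type} {g : Ω → Finset Ω × Finset Ω} {γ : Ω} (h : Good g γ) :
    γ ∉ (g γ).1 := by
  induction h with
  | mk γ hA hB h1 h2 h3 ihA ihB => exact fun hmem => ihA γ hmem hmem

theorem Good.irrefl2 {Ω : Type} {g : Ω → Finset Ω × Finset Ω} {γ : Ω} (h : Good g γ) :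
    γ ∉ (g γ).2 := by
  induction h with
  | mk γ hA hB h1 h2 h3 ihA ihB => exact fun hmem => ihB γ hmem hmem

theorem exists_scheme {Ω : Type} (g : Ω → Finset Ω × Finset Ω)
    (hg : ∀ c, ¬ {γ | g γ = c}.Countable) : Nonempty (IdxScheme {γ : Ω // Good g γ}) := by
  classical
  refine ⟨{ P := fun γ => (g γ.1).1.subtype (Good g)
            N := fun γ => (g γ.1).2.subtype (Good g)
            P_trans := ?_
            N_mono := ?_
            P_irrefl := ?_
            N_irrefl := ?_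
            disj := ?_
            many := ?_ }⟩
  · rintro ⟨γ, hγ⟩ ⟨α, hα⟩ h
    rw [Finset.mem_subtype] at h
    intro δ hδ
    rw [Finset.mem_subtype] at hδ ⊢
    cases hγ with
    | mk _ hA hB h1 h2 h3 => exact h1 α h hδ
  · rintro ⟨γ, hγ⟩ ⟨α, hα⟩ h
    rw [Finset.mem_subtype] at h
    intro δ hδ
    rw [Finset.mem_subtype] at hδ ⊢
    cases hγ with
    | mk _ hA hB h1 h2 h3 => exact h2 α h hδ
  · rintro ⟨γ, hγ⟩ h
    rw [Finset.mem_subtype] at h
    exact hγ.irrefl1 h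
  · rintro ⟨γ, hγ⟩ h
    rw [Finset.mem_subtype] at h
    exact hγ.irrefl2 h
  · rintro ⟨γ, hγ⟩
    rw [Finset.disjoint_left]
    intro α h1 h2
    rw [Finset.mem_subtype] at h1 h2
    cases hγ with
    | mk _ hA hB _ _ h3 => exact (Finset.disjoint_left.1 h3) h1 h2
  · intro P₀ N₀ hP hN hd hc
    set c : Finset Ω × Finset Ω := (P₀.map (Function.Embedding.subtype _),
      N₀.map (Function.Embedding.subtype _)) with hcdef
    apply hg c
    have hgood : ∀ γ, g γ = c → Good g γ := by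
      intro γ hγ
      have e1 : (g γ).1 = P₀.map (Function.Embedding.subtype _) := by rw [hγ]
      have e2 : (g γ).2 = N₀.map (Function.Embedding.subtype _) := by rw [hγ]
      refine Good.mk γ ?_ ?_ ?_ ?_ ?_
      · intro α hα
        rw [e1, Finset.mem_map] at hα
        obtain ⟨a, _, rfl⟩ := hα
        exact a.2
      · intro α hα
        rw [e2, Finset.mem_map] at hα
        obtain ⟨a, _, rfl⟩ := hα
        exact a.2
      · intro α hα
        rw [e1, Finset.mem_map] at hα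
        obtain ⟨a, ha, rfl⟩ := hα
        rw [e1]
        intro δ hδ
        have hδg : Good g δ := by
          cases a.2 with
          | mk _ hA hB h1 h2 h3 => exact hA δ hδ
        rw [Finset.mem_map]
        exact ⟨⟨δ, hδg⟩, hP a ha (by rw [Finset.mem_subtype]; exact hδ), rfl⟩
      · intro α hα
        rw [e1, Finset.mem_map] at hα
        obtain ⟨a, ha, rfl⟩ := hα
        rw [e2]
        intro δ hδ
        have hδg : Good g δ := by
          cases a.2 with
          | mk _ hA hB h1 h2 h3 => exact hB δ hδ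
        rw [Finset.mem_map]
        exact ⟨⟨δ, hδg⟩, hN a ha (by rw [Finset.mem_subtype]; exact hδ), rfl⟩
      · rw [e1, e2, Finset.disjoint_map]
        exact hd
    have himg : {γ | g γ = c} ⊆ (Subtype.val : {γ : Ω // Good g γ} → Ω) ''
        {γ | (g γ.1).1.subtype (Good g) = P₀ ∧ (g γ.1).2.subtype (Good g) = N₀} := by
      intro γ hγ
      refine ⟨⟨γ, hgood γ hγ⟩, ⟨?_, ?_⟩, rfl⟩
      · ext a
        rw [Finset.mem_subtype]
        have e1 : (g γ).1 = P₀.map (Function.Embedding.subtype _) := by rw [hγ]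
        simp only [e1, Finset.mem_map]
        constructor
        · rintro ⟨b, hb, hba⟩
          have : b = a := Subtype.ext hba
          exact this ▸ hb
        · intro ha
          exact ⟨a, ha, rfl⟩
      · ext a
        rw [Finset.mem_subtype]
        have e1 : (g γ).2 = N₀.map (Function.Embedding.subtype _) := by rw [hγ]
        simp only [e1, Finset.mem_map]
        constructor
        · rintro ⟨b, hb, hba⟩
          have : b = a := Subtype.ext hba
          exact this ▸ hb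
        · intro ha
          exact ⟨a, ha, rfl⟩
    exact (hc.image _).mono himg

theorem exists_fibers {A : Type} (hA : #A ≤ ℵ₁) (hne : Nonempty A) {T : Type} (hT : #T = ℵ₁) :
    ∃ g : T → A, ∀ c, ¬ {t | g t = c}.Countable := by
  have h1 : #(A × T) = #T := by
    rw [Cardinal.mk_prod, Cardinal.lift_id, Cardinal.lift_id, hT]
    apply Cardinal.mul_eq_right (Cardinal.aleph0_le_aleph 1) hA
    rw [Cardinal.mk_ne_zero_iff]; exact hne
  obtain ⟨e⟩ := Cardinal.eq.1 h1.symm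
  refine ⟨fun t => (e t).1, fun c hc => ?_⟩
  have hinj : Function.Injective (fun t : T => e.symm (c, t)) := by
    intro a b hab
    have := e.symm.injective hab
    exact (Prod.mk.inj this).2
  have hsub : Set.range (fun t : T => e.symm (c, t)) ⊆ {t | (e t).1 = c} := by
    rintro _ ⟨t, rfl⟩
    simp
  have hcr := hc.mono hsub
  have : (Set.univ : Set T).Countable := by
    rw [← Set.image_univ] at hcr
    exact Set.countable_of_injective_of_countable_image hinj.injOn hcr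
  rw [Set.countable_univ_iff, ← Cardinal.mk_le_aleph0_iff, hT] at this
  exact absurd this (not_le.2 Cardinal.aleph0_lt_aleph_one)

section Points

variable {I : Type} (S : IdxScheme I)

/-- The points of the space: subsets `x` of `I` that are closed, directed and decide everything. -/
def IsPoint (x : Set I) : Prop :=
  (∀ γ ∈ x, (↑(S.P γ) : Set I) ⊆ x) ∧ (∀ γ ∈ x, ∀ β ∈ S.N γ, β ∉ x) ∧
  (∀ Q : Finset I, (↑Q : Set I) ⊆ x → ∃ γ ∈ x, Q ⊆ S.P γ) ∧
  (∀ β, β ∉ x → ∃ γ ∈ x, β ∈ S.N γ)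

/-- Countable conditions. -/
structure Cond (q : Set I × Set I) : Prop where
  cx : q.1.Countable
  cy : q.2.Countable
  dis : Disjoint q.1 q.2
  clP : ∀ γ ∈ q.1, (↑(S.P γ) : Set I) ⊆ q.1
  clN : ∀ γ ∈ q.1, (↑(S.N γ) : Set I) ⊆ q.2

include S in
theorem uncountable_index : ¬ (Set.univ : Set I).Countable := by
  intro h
  exact S.many ∅ ∅ (by simp) (by simp) (by simp) (h.mono (Set.subset_univ _))

theorem exists_point {T : Type} [LinearOrder T] [WellFoundedLT T]
    (hT : ∀ t : T, (Iio t).Countable) (τ : T → Finset I × I)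
    (hτ : ∀ c, ¬ {t | τ t = c}.Countable) (Φ : Set I) (q₀ : Set I × Set I)
    (h₀ : Cond S q₀) (hΦ : q₀.1 ⊆ Φ)
    (hext : ∀ q, Cond S q → q.1 ⊆ Φ → q₀.1 ⊆ q.1 → q₀.2 ⊆ q.2 →
      ∀ (Q : Finset I) (β : I), (↑Q : Set I) ⊆ q.1 → β ∉ q.1 →
      ∃ q', Cond S q' ∧ q'.1 ⊆ Φ ∧ q.1 ⊆ q'.1 ∧ q.2 ⊆ q'.2 ∧
        ∃ γ ∈ q'.1, Q ⊆ S.P γ ∧ β ∈ S.N γ) :
    ∃ z, IsPoint S z ∧ q₀.1 ⊆ z ∧ z ⊆ Φ ∧ Disjoint q₀.2 z := by
  classical
  set Ok : Set I × Set I → Prop := fun q => Cond S q ∧ q.1 ⊆ Φ ∧ q₀.1 ⊆ q.1 ∧ q₀.2 ⊆ q.2 with hOk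
  have hext' : ∀ q, Ok q → ∀ (Q : Finset I) (β : I), (↑Q : Set I) ⊆ q.1 →
      ∃ q', Ok q' ∧ q.1 ⊆ q'.1 ∧ q.2 ⊆ q'.2 ∧ ∃ γ ∈ q'.1, Q ⊆ S.P γ ∧ (β ∉ q.1 → β ∈ S.N γ) := by
    intro q hq Q β hQ
    obtain ⟨hc, h1, h2, h3⟩ := hq
    by_cases hβ : β ∈ q.1
    · have : ∃ β', β' ∉ q.1 := by
        by_contra hcon
        push Not at hcon
        exact uncountable_index S (hc.cx.mono (fun a _ => hcon a))
      obtain ⟨β', hβ'⟩ := this
      obtain ⟨q', k1, k2, k3, k4, γ, k5, k6, k7⟩ := hext q hc h1 h2 h3 Q β' hQ hβ'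
      exact ⟨q', ⟨k1, k2, h2.trans k3, h3.trans k4⟩, k3, k4, γ, k5, k6, fun h => absurd hβ h⟩
    · obtain ⟨q', k1, k2, k3, k4, γ, k5, k6, k7⟩ := hext q hc h1 h2 h3 Q β hQ hβ
      exact ⟨q', ⟨k1, k2, h2.trans k3, h3.trans k4⟩, k3, k4, γ, k5, k6, fun _ => k7⟩
  have hstep : ∀ (q : Set I × Set I) (c : Finset I × I), ∃ q' : Set I × Set I,
      q.1 ⊆ q'.1 ∧ q.2 ⊆ q'.2 ∧ (Ok q → Ok q') ∧
      (Ok q → (↑c.1 : Set I) ⊆ q.1 → ∃ γ ∈ q'.1, c.1 ⊆ S.P γ ∧ (c.2 ∉ q.1 → c.2 ∈ S.N γ)) := by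
    intro q c
    by_cases h : Ok q ∧ (↑c.1 : Set I) ⊆ q.1
    · obtain ⟨q', k1, k2, k3, k4⟩ := hext' q h.1 c.1 c.2 h.2
      exact ⟨q', k2, k3, fun _ => k1, fun _ _ => k4⟩
    · exact ⟨q, subset_rfl, subset_rfl, id, fun h1 h2 => absurd ⟨h1, h2⟩ h⟩
  choose step hs1 hs2 hs3 hs4 using hstep
  let F : T → Set I × Set I := WellFoundedLT.fix (fun t (rec : ∀ s, s < t → Set I × Set I) =>
    step (q₀.1 ∪ ⋃ s : Iio t, (rec s.1 s.2).1, q₀.2 ∪ ⋃ s : Iio t, (rec s.1 s.2).2) (τ t))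
  have hF : ∀ t, F t = step (q₀.1 ∪ ⋃ s : Iio t, (F s.1).1, q₀.2 ∪ ⋃ s : Iio t, (F s.1).2) (τ t) := by
    intro t
    exact WellFoundedLT.fix_eq _ t
  set pre : T → Set I × Set I := fun t =>
    (q₀.1 ∪ ⋃ s : Iio t, (F s.1).1, q₀.2 ∪ ⋃ s : Iio t, (F s.1).2) with hpre
  have hF' : ∀ t, F t = step (pre t) (τ t) := hF
  have hpre1 : ∀ t, (pre t).1 ⊆ (F t).1 := fun t => by rw [hF' t]; exact hs1 _ _
  have hpre2 : ∀ t, (pre t).2 ⊆ (F t).2 := fun t => by rw [hF' t]; exact hs2 _ _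
  have hlt1 : ∀ s t, s < t → (F s).1 ⊆ (pre t).1 := fun s t hst a ha =>
    Or.inr (Set.mem_iUnion.2 ⟨⟨s, hst⟩, ha⟩)
  have hlt2 : ∀ s t, s < t → (F s).2 ⊆ (pre t).2 := fun s t hst a ha =>
    Or.inr (Set.mem_iUnion.2 ⟨⟨s, hst⟩, ha⟩)
  have hmono1 : Monotone (fun t => (F t).1) := by
    intro s t hst
    rcases hst.eq_or_lt with rfl | h
    · exact subset_rfl
    · exact (hlt1 s t h).trans (hpre1 t)
  have hmono2 : Monotone (fun t => (F t).2) := by
    intro s t hst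
    rcases hst.eq_or_lt with rfl | h
    · exact subset_rfl
    · exact (hlt2 s t h).trans (hpre2 t)
  have hokpre : ∀ t, (∀ s, s < t → Ok (F s)) → Ok (pre t) := by
    intro t ih
    have : Countable (Iio t) := (hT t).to_subtype
    refine ⟨⟨?_, ?_, ?_, ?_, ?_⟩, ?_, ?_, ?_⟩
    · exact h₀.cx.union (Set.countable_iUnion fun s => (ih s.1 s.2).1.cx)
    · exact h₀.cy.union (Set.countable_iUnion fun s => (ih s.1 s.2).1.cy)
    · rw [Set.disjoint_left]
      rintro a (ha | ha) (hb | hb)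
      · exact (Set.disjoint_left.1 h₀.dis) ha hb
      · obtain ⟨s, hs⟩ := Set.mem_iUnion.1 hb
        exact (Set.disjoint_left.1 (ih s.1 s.2).1.dis) ((ih s.1 s.2).2.2.1 ha) hs
      · obtain ⟨s, hs⟩ := Set.mem_iUnion.1 ha
        exact (Set.disjoint_left.1 (ih s.1 s.2).1.dis) hs ((ih s.1 s.2).2.2.2 hb)
      · obtain ⟨s, hs⟩ := Set.mem_iUnion.1 ha
        obtain ⟨r, hr⟩ := Set.mem_iUnion.1 hb
        rcases le_total s.1 r.1 with h | h
        · exact (Set.disjoint_left.1 (ih r.1 r.2).1.dis) (hmono1 h hs) hr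
        · exact (Set.disjoint_left.1 (ih s.1 s.2).1.dis) hs (hmono2 h hr)
    · rintro a (ha | ha)
      · exact (h₀.clP a ha).trans Set.subset_union_left
      · obtain ⟨s, hs⟩ := Set.mem_iUnion.1 ha
        exact ((ih s.1 s.2).1.clP a hs).trans (hlt1 _ _ s.2)
    · rintro a (ha | ha)
      · exact (h₀.clN a ha).trans Set.subset_union_left
      · obtain ⟨s, hs⟩ := Set.mem_iUnion.1 ha
        exact ((ih s.1 s.2).1.clN a hs).trans (hlt2 _ _ s.2)
    · rintro a (ha | ha)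
      · exact hΦ ha
      · obtain ⟨s, hs⟩ := Set.mem_iUnion.1 ha
        exact (ih s.1 s.2).2.1 hs
    · exact Set.subset_union_left
    · exact Set.subset_union_left
  have hokF : ∀ t, Ok (F t) := by
    intro t
    induction t using WellFoundedLT.induction with
    | ind t ih =>
      rw [hF' t]
      exact hs3 _ _ (hokpre t ih)
  have hokP : ∀ t, Ok (pre t) := fun t => hokpre t fun s _ => hokF s
  have hunb : ∀ (t : T) (c : Finset I × I), ∃ s, t < s ∧ τ s = c := by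
    intro t c
    by_contra hcon
    push Not at hcon
    apply hτ c
    have : {t | τ t = c} ⊆ insert t (Iio t) := by
      intro s hs
      by_cases h : t < s
      · exact absurd hs (hcon s h)
      · rcases (not_lt.1 h).eq_or_lt with h' | h'
        · exact Or.inl h'
        · exact Or.inr h'
    exact ((hT t).insert t).mono this
  have hneI : Nonempty I := by
    by_contra hcon
    rw [not_nonempty_iff] at hcon
    exact uncountable_index S (Set.to_countable _)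
  have hneT : Nonempty T := by
    by_contra hcon
    rw [not_nonempty_iff] at hcon
    exact hτ (∅, Classical.arbitrary I) (Set.to_countable _)
  set z : Set I := ⋃ t, (F t).1 with hz
  have hzmem : ∀ a, a ∈ z ↔ ∃ t, a ∈ (F t).1 := fun a => Set.mem_iUnion
  have hy : ∀ t, ∀ a ∈ (F t).2, a ∉ z := by
    intro t a ha haz
    obtain ⟨s, hs⟩ := (hzmem a).1 haz
    rcases le_total s t with h | h
    · exact (Set.disjoint_left.1 (hokF t).1.dis) (hmono1 h hs) ha
    · exact (Set.disjoint_left.1 (hokF s).1.dis) hs (hmono2 h ha)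
  refine ⟨z, ⟨?_, ?_, ?_, ?_⟩, ?_, ?_, ?_⟩
  · intro γ hγ a ha
    obtain ⟨t, ht⟩ := (hzmem γ).1 hγ
    exact (hzmem a).2 ⟨t, (hokF t).1.clP γ ht ha⟩
  · intro γ hγ β hβ
    obtain ⟨t, ht⟩ := (hzmem γ).1 hγ
    exact hy t β ((hokF t).1.clN γ ht hβ)
  · intro Q hQ
    obtain ⟨t, ht⟩ : ∃ t, (↑Q : Set I) ⊆ (F t).1 := by
      apply Directed.exists_mem_subset_of_finset_subset_biUnion (f := fun t => (F t).1)
      · exact hmono1.directed_le
      · exact hQ
    obtain ⟨s, hs1', hs2'⟩ := hunb t (Q, Classical.arbitrary I)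
    have hsub : (↑Q : Set I) ⊆ (pre s).1 := ht.trans (hlt1 t s hs1')
    obtain ⟨γ, hγ1, hγ2, _⟩ := hs4 (pre s) (τ s) (hokP s) (by rw [hs2']; exact hsub)
    rw [← hF' s] at hγ1
    rw [hs2'] at hγ2
    exact ⟨γ, (hzmem γ).2 ⟨s, hγ1⟩, hγ2⟩
  · intro β hβ
    obtain ⟨s, _, hs2'⟩ := hunb (Classical.arbitrary T) (∅, β)
    obtain ⟨γ, hγ1, _, hγ3⟩ := hs4 (pre s) (τ s) (hokP s) (by rw [hs2']; simp)
    rw [← hF' s] at hγ1
    rw [hs2'] at hγ3
    refine ⟨γ, (hzmem γ).2 ⟨s, hγ1⟩, hγ3 fun h => hβ ((hzmem β).2 ⟨s, hpre1 s h⟩)⟩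
  · intro a ha
    exact (hzmem a).2 ⟨Classical.arbitrary T, (hokF _).2.2.1 ha⟩
  · intro a ha
    obtain ⟨t, ht⟩ := (hzmem a).1 ha
    exact (hokF t).2.1 ht
  · rw [Set.disjoint_left]
    intro a ha
    exact hy (Classical.arbitrary T) a ((hokF _).2.2.2 ha)

/-- Adding an index to a condition. -/
def addIdx (q : Set I × Set I) (γ : I) : Set I × Set I :=
  (q.1 ∪ (↑(S.P γ) ∪ {γ}), q.2 ∪ ↑(S.N γ))

theorem cond_addIdx {q : Set I × Set I} (hq : Cond S q) {γ : I} (h1 : γ ∉ q.2)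
    (h2 : Disjoint (↑(S.P γ) : Set I) q.2) (h3 : Disjoint (↑(S.N γ) : Set I) q.1) :
    Cond S (addIdx S q γ) := by
  refine ⟨?_, ?_, ?_, ?_, ?_⟩
  · exact hq.cx.union ((Finset.countable_toSet _).union (Set.countable_singleton _))
  · exact hq.cy.union (Finset.countable_toSet _)
  · rw [Set.disjoint_left]
    rintro a (ha | ha | ha) (hb | hb)
    · exact (Set.disjoint_left.1 hq.dis) ha hb
    · exact (Set.disjoint_left.1 h3) hb ha
    · exact (Set.disjoint_left.1 h2) ha hb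
    · exact (Finset.disjoint_left.1 (S.disj γ)) ha hb
    · rw [Set.mem_singleton_iff] at ha
      exact h1 (ha ▸ hb)
    · rw [Set.mem_singleton_iff] at ha
      exact S.N_irrefl γ (by rw [ha] at hb; exact hb)
  · rintro a (ha | ha | ha)
    · exact (hq.clP a ha).trans Set.subset_union_left
    · intro b hb
      exact Or.inr (Or.inl (S.P_trans γ a ha hb))
    · rw [Set.mem_singleton_iff] at ha
      intro b hb
      rw [ha] at hb
      exact Or.inr (Or.inl hb)
  · rintro a (ha | ha | ha)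
    · exact (hq.clN a ha).trans Set.subset_union_left
    · intro b hb
      exact Or.inr (S.N_mono γ a ha hb)
    · rw [Set.mem_singleton_iff] at ha
      intro b hb
      rw [ha] at hb
      exact Or.inr hb

/-- Closure of a finite set under `P`. -/
theorem exists_closed {q : Set I × Set I} (hq : Cond S q) (Q : Finset I) (hQ : (↑Q : Set I) ⊆ q.1) :
    ∃ Q' : Finset I, Q ⊆ Q' ∧ (↑Q' : Set I) ⊆ q.1 ∧ ∀ α ∈ Q', S.P α ⊆ Q' := by
  classical
  refine ⟨Q ∪ Q.biUnion S.P, Finset.subset_union_left, ?_, ?_⟩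
  · intro a ha
    rw [Finset.coe_union] at ha
    rcases ha with ha | ha
    · exact hQ ha
    · rw [Finset.mem_coe, Finset.mem_biUnion] at ha
      obtain ⟨b, hb, hab⟩ := ha
      exact hq.clP b (hQ hb) hab
  · intro α hα β hβ
    rw [Finset.mem_union, Finset.mem_biUnion] at hα ⊢
    rcases hα with hα | ⟨b, hb, hab⟩
    · exact Or.inr ⟨α, hα, hβ⟩
    · exact Or.inr ⟨b, hb, S.P_trans b α hab hβ⟩

/-- Every (closed, disjoint) finite piece of a condition plus one more excluded index is realized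
by an index outside a given countable set. -/
theorem exists_index (P₀ N₀ : Finset I) (h1 : ∀ α ∈ P₀, S.P α ⊆ P₀) (h2 : ∀ α ∈ P₀, S.N α ⊆ N₀)
    (h3 : Disjoint P₀ N₀) (E : Set I) (hE : E.Countable) :
    ∃ γ, γ ∉ E ∧ S.P γ = P₀ ∧ S.N γ = N₀ := by
  by_contra hcon
  push Not at hcon
  apply S.many P₀ N₀ h1 h2 h3
  refine hE.mono ?_
  rintro γ ⟨hγ1, hγ2⟩
  by_contra hγ
  exact hcon γ hγ hγ1 hγ2

section Homogeneous

variable {T : Type} [LinearOrder T] [WellFoundedLT T]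
    (hT : ∀ t : T, (Iio t).Countable) (τ : T → Finset I × I)
    (hτ : ∀ c, ¬ {t | τ t = c}.Countable)

include hT hτ in
/-- Every condition extends to a point. -/
theorem exists_point_extending (q₀ : Set I × Set I) (h₀ : Cond S q₀) :
    ∃ z, IsPoint S z ∧ q₀.1 ⊆ z ∧ Disjoint q₀.2 z := by
  classical
  obtain ⟨z, h1, h2, _, h3⟩ := exists_point S hT τ hτ Set.univ q₀ h₀ (Set.subset_univ _) (by
    intro q hq _ _ _ Q β hQ hβ
    obtain ⟨Q', hQ1, hQ2, hQ3⟩ := exists_closed S hq Q hQ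
    obtain ⟨γ, hγ1, hγ2, hγ3⟩ := exists_index S Q' (insert β (Q'.biUnion S.N)) hQ3
      (fun α hα => (Finset.subset_biUnion_of_mem S.N hα).trans (Finset.subset_insert _ _))
      (by
        rw [Finset.disjoint_left]
        intro a ha hb
        rw [Finset.mem_insert, Finset.mem_biUnion] at hb
        rcases hb with rfl | ⟨b, hb, hab⟩
        · exact hβ (hQ2 ha)
        · exact (Set.disjoint_left.1 hq.dis) (hQ2 ha) (hq.clN b (hQ2 hb) hab))
      q.2 hq.cy
    refine ⟨addIdx S q γ, cond_addIdx S hq hγ1 ?_ ?_, Set.subset_univ _, Set.subset_union_left,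
      Set.subset_union_left, γ, Or.inr (Or.inr rfl), by rw [hγ2]; exact hQ1,
      by rw [hγ3]; exact Finset.mem_insert_self _ _⟩
    · rw [hγ2]
      exact hq.dis.mono_left hQ2
    · rw [hγ3, Set.disjoint_left]
      intro a ha hb
      rw [Finset.coe_insert, Set.mem_insert_iff, Finset.mem_coe, Finset.mem_biUnion] at ha
      rcases ha with rfl | ⟨b, hb', hab⟩
      · exact hβ hb
      · exact (Set.disjoint_left.1 hq.dis) hb (hq.clN b (hQ2 hb') hab))
  exact ⟨z, h1, h2, h3⟩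

/-- `w`-stuck conditions. -/
def Stuck (f : I → Prop) (w : I) (q : Set I × Set I) (Q : Finset I) (β : I) : Prop :=
  ∀ q', Cond S q' → (∀ γ ∈ q'.1, w ∈ S.P γ → (f γ ↔ f w)) → q.1 ⊆ q'.1 → q.2 ⊆ q'.2 →
    ¬ ∃ γ ∈ q'.1, Q ⊆ S.P γ ∧ β ∈ S.N γ

include hT hτ in
theorem exists_stuck (f : I → Prop)
    (hno : ∀ x, IsPoint S x → ∀ w ∈ x, ∃ γ ∈ x, w ∈ S.P γ ∧ ¬ (f γ ↔ f w))
    (w : I) (q₀ : Set I × Set I) (h₀ : Cond S q₀) (hw : w ∈ q₀.1)
    (hom : ∀ γ ∈ q₀.1, w ∈ S.P γ → (f γ ↔ f w)) :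
    ∃ q, Cond S q ∧ q₀.1 ⊆ q.1 ∧ q₀.2 ⊆ q.2 ∧ (∀ γ ∈ q.1, w ∈ S.P γ → (f γ ↔ f w)) ∧
      ∃ (Q : Finset I) (β : I), (↑Q : Set I) ⊆ q.1 ∧ w ∈ Q ∧ (∀ α ∈ Q, S.P α ⊆ Q) ∧ β ∉ q.1 ∧
        Stuck S f w q Q β := by
  classical
  by_contra hcon
  obtain ⟨z, hz1, hz2, hz3, _⟩ := exists_point S hT τ hτ {γ | w ∈ S.P γ → (f γ ↔ f w)} q₀ h₀ hom (by
    intro q hq hqΦ hq1 hq2 Q β hQ hβ
    by_contra hcon2
    apply hcon
    have hwQ : (↑(insert w Q) : Set I) ⊆ q.1 := by
      intro a ha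
      rw [Finset.coe_insert] at ha
      rcases ha with rfl | ha
      · exact hq1 hw
      · exact hQ ha
    obtain ⟨Q', hQ1, hQ2, hQ3⟩ := exists_closed S hq (insert w Q) hwQ
    refine ⟨q, hq, hq1, hq2, hqΦ, Q', β, hQ2, hQ1 (Finset.mem_insert_self _ _), hQ3, hβ, ?_⟩
    rintro q' hq' hom' h1 h2 ⟨γ, hγ1, hγ2, hγ3⟩
    exact hcon2 ⟨q', hq', hom', h1, h2, γ, hγ1,
      ((Finset.subset_insert _ _).trans hQ1).trans hγ2, hγ3⟩)
  obtain ⟨γ, hγ1, hγ2, hγ3⟩ := hno z hz1 w (hz2 hw)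
  exact hγ3 (hz3 hγ1 hγ2)

theorem stuck_consequence {f : I → Prop} {w : I} {q : Set I × Set I} {Q : Finset I} {β : I}
    (hq : Cond S q) (hom : ∀ γ ∈ q.1, w ∈ S.P γ → (f γ ↔ f w)) (hst : Stuck S f w q Q β)
    {γ : I} (hQ : Q ⊆ S.P γ) (hβ : β ∈ S.N γ) (h1 : γ ∉ q.2)
    (h2 : Disjoint (↑(S.P γ) : Set I) q.2) (h3 : Disjoint (↑(S.N γ) : Set I) q.1)
    (h4 : ∀ δ ∈ S.P γ, w ∈ S.P δ → δ ∈ q.1) : ¬ (f γ ↔ f w) := by
  intro hf
  refine hst (addIdx S q γ) (cond_addIdx S hq h1 h2 h3) ?_ Set.subset_union_left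
    Set.subset_union_left ⟨γ, Or.inr (Or.inr rfl), hQ, hβ⟩
  rintro δ (hδ | hδ | hδ) hw
  · exact hom δ hδ hw
  · exact hom δ (h4 δ hδ hw) hw
  · rw [Set.mem_singleton_iff] at hδ
    rw [hδ]; exact hf

include hT hτ in
theorem exists_free (f : I → Prop)
    (hno : ∀ x, IsPoint S x → ∀ w ∈ x, ∃ γ ∈ x, w ∈ S.P γ ∧ ¬ (f γ ↔ f w))
    (b : Prop) (q : Set I × Set I) (hq : Cond S q) :
    ∃ u, u ∉ q.1 ∧ u ∉ q.2 ∧ Disjoint (↑(S.P u) : Set I) q.2 ∧ Disjoint (↑(S.N u) : Set I) q.1 ∧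
      (f u ↔ b) := by
  classical
  by_contra hcon
  push Not at hcon
  obtain ⟨w, hw1, hw2, hw3⟩ := exists_index S ∅ ∅ (by simp) (by simp) (by simp) (q.1 ∪ q.2)
    (hq.cx.union hq.cy)
  have hc := cond_addIdx S hq (γ := w) (fun h => hw1 (Or.inr h)) (by rw [hw2]; simp)
    (by rw [hw3]; simp)
  obtain ⟨z, hz1, hz2, hz3⟩ := exists_point_extending S hT τ hτ _ hc
  have hwz : w ∈ z := hz2 (Or.inr (Or.inr rfl))
  obtain ⟨γ, hγ1, hγ2, hγ3⟩ := hno z hz1 w hwz
  have hq1z : q.1 ⊆ z := fun a ha => hz2 (Or.inl ha)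
  have hq2z : ∀ a ∈ q.2, a ∉ z := fun a ha => (Set.disjoint_left.1 hz3) (Or.inl ha)
  have key : ∀ δ ∈ z, δ ∉ q.1 → ¬ (f δ ↔ b) := by
    intro δ hδ hδq hfb
    refine absurd hfb ?_
    have := hcon δ hδq (fun h => hq2z δ h hδ)
      (by rw [Set.disjoint_left]; intro a ha hb; exact hq2z a hb (hz1.1 δ hδ ha))
      (by rw [Set.disjoint_left]; intro a ha hb; exact hz1.2.1 δ hδ a ha (hq1z hb))
    intro h
    rcases this with ⟨h1, h2⟩ | ⟨h1, h2⟩
    · exact h2 (h.1 h1)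
    · exact h1 (h.2 h2)
  have kw := key w hwz (fun h => hw1 (Or.inl h))
  have kγ := key γ hγ1 (fun h => hw1 (Or.inl (hq.clP γ h hγ2)))
  apply hγ3
  by_cases hb : b <;> simp_all

include hT hτ in
/-- **Homogeneous point theorem.** For every two-colouring `f` of the index set there is a point
`x` and `w ∈ x` such that `f` is constant on the indices of `x` below `w`. -/
theorem exists_homogeneous (f : I → Prop) :
    ∃ x, IsPoint S x ∧ ∃ w ∈ x, ∀ γ ∈ x, w ∈ S.P γ → (f γ ↔ f w) := by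
  classical
  by_contra hcon
  have hno : ∀ x, IsPoint S x → ∀ w ∈ x, ∃ γ ∈ x, w ∈ S.P γ ∧ ¬ (f γ ↔ f w) := by
    intro x hx w hw
    by_contra h
    push Not at h
    refine hcon ⟨x, hx, w, hw, fun γ hγ hwγ => ?_⟩
    have := h γ hγ hwγ
    tauto
  -- one step
  have hone : ∀ (b : Prop) (q : Set I × Set I), Cond S q →
      ∃ (u : I) (q' : Set I × Set I) (Q : Finset I) (β : I), Cond S q' ∧ q.1 ⊆ q'.1 ∧ q.2 ⊆ q'.2 ∧
        u ∉ q.1 ∧ (f u ↔ b) ∧ (∀ γ ∈ q'.1, u ∈ S.P γ → (f γ ↔ f u)) ∧ (↑Q : Set I) ⊆ q'.1 ∧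
        u ∈ Q ∧ (∀ α ∈ Q, S.P α ⊆ Q) ∧ β ∉ q'.1 ∧ Stuck S f u q' Q β := by
    intro b q hq
    obtain ⟨u, h1, h2, h3, h4, h5⟩ := exists_free S hT τ hτ f hno b q hq
    have hc := cond_addIdx S hq h2 h3 h4
    obtain ⟨q', k1, k2, k3, k4, Q, β, k5, k6, k7, k8, k9⟩ := exists_stuck S hT τ hτ f hno u _ hc
      (Or.inr (Or.inr rfl)) (by
        rintro γ (hγ | hγ | hγ) huγ
        · exact absurd (hq.clP γ hγ huγ) h1
        · exact absurd (S.P_trans u γ hγ huγ) (S.P_irrefl u)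
        · rw [Set.mem_singleton_iff] at hγ
          rw [hγ])
    exact ⟨u, q', Q, β, k1, fun a ha => k2 (Or.inl ha), fun a ha => k3 (Or.inl ha), h1, h5, k4, k5,
      k6, k7, k8, k9⟩
  have hneI : Nonempty I := by
    obtain ⟨w, _⟩ := exists_index S ∅ ∅ (by simp) (by simp) (by simp) ∅ Set.countable_empty
    exact ⟨w⟩
  choose! U QQ Qf Bf hc1 hc2 hc3 hc4 hc5 hc6 hc7 hc8 hc9 hc10 hc11 using hone
  -- the sequence
  let nxt : Set I × Set I → Set I × Set I := fun q =>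
    ((QQ True q).1, insert (Bf True q) (QQ True q).2)
  have hnxt : ∀ q, Cond S q → Cond S (nxt q) := by
    intro q hq
    have h := hc1 True q hq
    refine ⟨h.cx, h.cy.insert _, ?_, h.clP, ?_⟩
    · rw [Set.disjoint_left]
      rintro a ha (rfl | hb)
      · exact hc10 True q hq ha
      · exact (Set.disjoint_left.1 h.dis) ha hb
    · intro γ hγ
      exact (h.clN γ hγ).trans (Set.subset_insert _ _)
  let s : ℕ → Set I × Set I := fun n => nxt^[n] (∅, ∅)
  have hs0 : s 0 = (∅, ∅) := rfl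
  have hssucc : ∀ n, s (n + 1) = nxt (s n) := fun n => Function.iterate_succ_apply' nxt n _
  have hscond : ∀ n, Cond S (s n) := by
    intro n
    induction n with
    | zero =>
      rw [hs0]
      refine ⟨Set.countable_empty, Set.countable_empty, Set.disjoint_left.2 (by simp), by simp,
        by simp⟩
    | succ n ih =>
      rw [hssucc]
      exact hnxt _ ih
  have hstep1 : ∀ n, (QQ True (s n)).1 ⊆ (s (n + 1)).1 := fun n => by rw [hssucc]
  have hstep2 : ∀ n, (QQ True (s n)).2 ⊆ (s (n + 1)).2 := fun n => by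
    rw [hssucc]; exact Set.subset_insert _ _
  have hm1 : Monotone (fun n => (s n).1) := monotone_nat_of_le_succ fun n =>
    (hc2 True _ (hscond n)).trans (hstep1 n)
  have hm2 : Monotone (fun n => (s n).2) := monotone_nat_of_le_succ fun n =>
    (hc3 True _ (hscond n)).trans (hstep2 n)
  set qω : Set I × Set I := (⋃ n, (s n).1, ⋃ n, (s n).2) with hqω
  have hcω : Cond S qω := by
    refine ⟨Set.countable_iUnion fun n => (hscond n).cx, Set.countable_iUnion fun n => (hscond n).cy,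
      ?_, ?_, ?_⟩
    · rw [Set.disjoint_left]
      intro a ha hb
      obtain ⟨n, hn⟩ := Set.mem_iUnion.1 ha
      obtain ⟨m, hm⟩ := Set.mem_iUnion.1 hb
      rcases le_total n m with h | h
      · exact (Set.disjoint_left.1 (hscond m).dis) (hm1 h hn) hm
      · exact (Set.disjoint_left.1 (hscond n).dis) hn (hm2 h hm)
    · intro γ hγ
      obtain ⟨n, hn⟩ := Set.mem_iUnion.1 hγ
      exact ((hscond n).clP γ hn).trans (Set.subset_iUnion (fun n => (s n).1) n)
    · intro γ hγ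
      obtain ⟨n, hn⟩ := Set.mem_iUnion.1 hγ
      exact ((hscond n).clN γ hn).trans (Set.subset_iUnion (fun n => (s n).2) n)
  -- the last stuck condition
  set w := U False qω with hw
  set q := QQ False qω with hq
  set Q := Qf False qω with hQ
  set β := Bf False qω with hβ
  have hqc : Cond S q := hc1 False qω hcω
  have hωq1 : qω.1 ⊆ q.1 := hc2 False qω hcω
  have hωq2 : qω.2 ⊆ q.2 := hc3 False qω hcω
  -- find n with `U True (s n) ∉ Q`
  have huinj : Function.Injective (fun n => U True (s n)) := by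
    have hlt : ∀ n m, n < m → U True (s n) ≠ U True (s m) := by
      intro n m hnm heq
      apply hc4 True _ (hscond m)
      rw [← heq]
      exact hm1 (Nat.succ_le_of_lt hnm) (hstep1 n (hc7 True _ (hscond n) (hc8 True _ (hscond n))))
    intro n m hnm
    rcases lt_trichotomy n m with h | h | h
    · exact absurd hnm (hlt n m h)
    · exact h
    · exact absurd hnm.symm (hlt m n h)
  obtain ⟨n, hn⟩ : ∃ n, U True (s n) ∉ Q := by
    by_contra hcon2
    push Not at hcon2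
    have : Set.Infinite (Set.range (fun n => U True (s n))) := Set.infinite_range_of_injective huinj
    apply this
    apply Q.finite_toSet.subset
    rintro _ ⟨n, rfl⟩
    exact hcon2 n
  set u := U True (s n) with hu
  set q' := QQ True (s n) with hq'
  set Q' := Qf True (s n) with hQ'
  set β' := Bf True (s n) with hβ'
  have hq'c : Cond S q' := hc1 True _ (hscond n)
  have hq'1 : q'.1 ⊆ q.1 := fun a ha => hωq1 (Set.mem_iUnion.2 ⟨n + 1, hstep1 n ha⟩)
  have hq'2 : q'.2 ⊆ q.2 := fun a ha => hωq2 (Set.mem_iUnion.2 ⟨n + 1, hstep2 n ha⟩)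
  have hβ'q : β' ∈ q.2 := hωq2 (Set.mem_iUnion.2 ⟨n + 1, by
    rw [hssucc]; exact Set.mem_insert _ _⟩)
  have hQ'q' : (↑Q' : Set I) ⊆ q'.1 := hc7 True _ (hscond n)
  have hQq : (↑Q : Set I) ⊆ q.1 := hc7 False _ hcω
  have hQcl : ∀ α ∈ Q, S.P α ⊆ Q := hc9 False _ hcω
  have hQ'cl : ∀ α ∈ Q', S.P α ⊆ Q' := hc9 True _ (hscond n)
  have hβq : β ∉ q.1 := hc10 False _ hcω
  obtain ⟨γ, hγ1, hγ2, hγ3⟩ := exists_index S (Q ∪ Q')
    (insert β (insert β' ((Q ∪ Q').biUnion S.N)))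
    (by
      intro α hα
      rw [Finset.mem_union] at hα
      rcases hα with hα | hα
      · exact (hQcl α hα).trans Finset.subset_union_left
      · exact (hQ'cl α hα).trans Finset.subset_union_right)
    (fun α hα => ((Finset.subset_biUnion_of_mem S.N hα).trans (Finset.subset_insert _ _)).trans
      (Finset.subset_insert _ _))
    (by
      rw [Finset.disjoint_left]
      intro a ha hb
      have haq : a ∈ q.1 := by
        rw [Finset.mem_union] at ha
        rcases ha with ha | ha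
        · exact hQq ha
        · exact hq'1 (hQ'q' ha)
      rw [Finset.mem_insert, Finset.mem_insert, Finset.mem_biUnion] at hb
      rcases hb with rfl | rfl | ⟨b, hb, hab⟩
      · exact hβq haq
      · exact (Set.disjoint_left.1 hqc.dis) haq hβ'q
      · have hbq : b ∈ q.1 := by
          rw [Finset.mem_union] at hb
          rcases hb with hb | hb
          · exact hQq hb
          · exact hq'1 (hQ'q' hb)
        exact (Set.disjoint_left.1 hqc.dis) haq (hqc.clN b hbq hab))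
    (q.1 ∪ q.2) (hqc.cx.union hqc.cy)
  have hPq : (↑(S.P γ) : Set I) ⊆ q.1 := by
    rw [hγ2]
    intro a ha
    rw [Finset.mem_coe, Finset.mem_union] at ha
    rcases ha with ha | ha
    · exact hQq ha
    · exact hq'1 (hQ'q' ha)
  have hNq : Disjoint (↑(S.N γ) : Set I) q.1 := by
    rw [Set.disjoint_left]
    intro a ha haq
    rw [hγ3, Finset.mem_coe, Finset.mem_insert, Finset.mem_insert, Finset.mem_biUnion] at ha
    rcases ha with rfl | rfl | ⟨b, hb, hab⟩
    · exact hβq haq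
    · exact (Set.disjoint_left.1 hqc.dis) haq hβ'q
    · have hbq : b ∈ q.1 := by
        rw [Finset.mem_union] at hb
        rcases hb with hb | hb
        · exact hQq hb
        · exact hq'1 (hQ'q' hb)
      exact (Set.disjoint_left.1 hqc.dis) haq (hqc.clN b hbq hab)
  have c1 : ¬ (f γ ↔ f w) := by
    refine stuck_consequence S hqc (hc6 False _ hcω) (hc11 False _ hcω) (γ := γ) ?_ ?_ ?_ ?_ ?_ ?_
    · rw [hγ2]; exact Finset.subset_union_left
    · rw [hγ3]; exact Finset.mem_insert_self _ _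
    · exact fun h => hγ1 (Or.inr h)
    · exact hqc.dis.mono_left hPq
    · exact hNq
    · intro δ hδ _
      exact hPq hδ
  have c2 : ¬ (f γ ↔ f u) := by
    refine stuck_consequence S hq'c (hc6 True _ (hscond n)) (hc11 True _ (hscond n)) (γ := γ)
      ?_ ?_ ?_ ?_ ?_ ?_
    · rw [hγ2]; exact Finset.subset_union_right
    · rw [hγ3]; exact Finset.mem_insert_of_mem (Finset.mem_insert_self _ _)
    · exact fun h => hγ1 (Or.inr (hq'2 h))
    · exact (hqc.dis.mono_left hPq).mono_right hq'2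
    · exact hNq.mono_right hq'1
    · intro δ hδ hδu
      rw [hγ2, Finset.mem_union] at hδ
      rcases hδ with hδ | hδ
      · exact absurd (hQcl δ hδ hδu) hn
      · exact hQ'q' hδ
  have fw : f w ↔ False := hc5 False _ hcω
  have fu : f u ↔ True := hc5 True _ (hscond n)
  rw [fw] at c1
  rw [fu] at c2
  tauto

end Homogeneous

end Points

end Pool.Agent.helper61.BaseRes
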