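import Mathlib
import Pool.Agent.helper67.ND.Defs

/-!
Module A of the proof of the `n/d` conjecture (project of helper67): the kernel `S_r(J, ψ)` on the
Orlik-Solomon algebra.
-/

namespace Pool.Agent.helper61.NDA

open Pool.Agent.helper67.ND

open scoped BigOperators

variable {k K : Type} [Field k] [Field K] [Algebra k K]
variable {ι : Type} [Fintype ι] {V : Type} [AddCommGroup V] [Module k V]

/-! ### Contractions and restriction -/

/-- Contraction with an arbitrary functional. -/
noncomputable def ct (d : Module.Dual k (ι → k)) :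
    ExteriorAlgebra k (ι → k) →ₗ[k] ExteriorAlgebra k (ι → k) :=
  CliffordAlgebra.contractLeft (Q := (0 : QuadraticForm k (ι → k))) d

theorem bd_eq : bd k ι = ct (sumDual k ι) := rfl

omit [Fintype ι] in
theorem ct_ct (d : Module.Dual k (ι → k)) (x : ExteriorAlgebra k (ι → k)) :
    ct d (ct d x) = 0 :=
  CliffordAlgebra.contractLeft_contractLeft (Q := (0 : QuadraticForm k (ι → k))) d x

omit [Fintype ι] in
theorem ct_map (f : (ι → k) →ₗ[k] (ι → k)) (d : Module.Dual k (ι → k))
    (x : ExteriorAlgebra k (ι → k)) :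
    ct d (ExteriorAlgebra.map f x) = ExteriorAlgebra.map f (ct (d ∘ₗ f) x) := by
  induction x using CliffordAlgebra.left_induction with
  | algebraMap r =>
    have h1 : (ExteriorAlgebra.map f) ((algebraMap k (CliffordAlgebra
        (0 : QuadraticForm k (ι → k)))) r) = algebraMap k (ExteriorAlgebra k (ι → k)) r :=
      AlgHom.commutes _ r
    rw [h1]
    have h2 : ct d ((algebraMap k (ExteriorAlgebra k (ι → k))) r) = 0 :=
      CliffordAlgebra.contractLeft_algebraMap (Q := (0 : QuadraticForm k (ι → k))) d r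
    have h3 : ct (d ∘ₗ f) ((algebraMap k (CliffordAlgebra
        (0 : QuadraticForm k (ι → k)))) r) = 0 :=
      CliffordAlgebra.contractLeft_algebraMap (Q := (0 : QuadraticForm k (ι → k))) (d ∘ₗ f) r
    rw [h2, h3, map_zero]
  | add x y hx hy =>
    rw [map_add, map_add, map_add, map_add, hx, hy]
  | ι_mul x m hx =>
    have h1 : (ExteriorAlgebra.map f) ((CliffordAlgebra.ι (0 : QuadraticForm k (ι → k))) m * x)
        = (CliffordAlgebra.ι (0 : QuadraticForm k (ι → k))) (f m) * ExteriorAlgebra.map f x := by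
      rw [map_mul]
      congr 1
      exact ExteriorAlgebra.map_apply_ι f m
    rw [h1]
    have h2 := CliffordAlgebra.contractLeft_ι_mul (Q := (0 : QuadraticForm k (ι → k))) d (f m)
      (ExteriorAlgebra.map f x)
    have h3 := CliffordAlgebra.contractLeft_ι_mul (Q := (0 : QuadraticForm k (ι → k)))
      (d ∘ₗ f) m x
    change ct d _ = _ at h2
    change ct (d ∘ₗ f) _ = _ at h3
    rw [h2, h3, map_sub]
    change _ - _ * ct d _ = _ - ExteriorAlgebra.map f (_ * ct (d ∘ₗ f) _)
    rw [map_mul, hx, map_smul]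
    congr 1
    congr 1
    exact (ExteriorAlgebra.map_apply_ι f m).symm

/-- The restricted functional. -/
noncomputable def dW (l : ι → V) (W : Submodule k V) : Module.Dual k (ι → k) :=
  sumDual k ι ∘ₗ resW l W

open Classical in
theorem dW_apply (l : ι → V) (W : Submodule k V) (x : ι → k) :
    dW l W x = ∑ i, if l i ∈ W then x i else 0 := by
  simp [dW, sumDual, resW]

theorem bd_rho (l : ι → V) (W : Submodule k V) (x : ExteriorAlgebra k (ι → k)) :
    bd k ι (rho l W x) = rho l W (ct (dW l W) x) := ct_map _ _ _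

omit [Fintype ι] in
theorem resW_resW (l : ι → V) (W W' : Submodule k V) :
    resW l W ∘ₗ resW l W' = resW l (W ⊓ W') := by
  refine LinearMap.ext fun x => funext fun i => ?_
  by_cases h1 : l i ∈ W <;> by_cases h2 : l i ∈ W' <;>
    simp [resW, h1, h2, Submodule.mem_inf]

omit [Fintype ι] in
theorem rho_rho (l : ι → V) (W W' : Submodule k V) (x : ExteriorAlgebra k (ι → k)) :
    rho l W (rho l W' x) = rho l (W ⊓ W') x := by
  have h := ExteriorAlgebra.map_comp_map (resW l W') (resW l W)
  have h2 := DFunLike.congr_fun h x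
  rw [resW_resW] at h2
  exact h2

omit [Fintype ι] in
theorem rho_rho_of_le (l : ι → V) {W W' : Submodule k V} (h : W ≤ W')
    (x : ExteriorAlgebra k (ι → k)) :
    rho l W (rho l W' x) = rho l W x := by
  rw [rho_rho, inf_eq_left.2 h]

omit [Fintype ι] in
theorem rho_rho_of_le' (l : ι → V) {W W' : Submodule k V} (h : W ≤ W')
    (x : ExteriorAlgebra k (ι → k)) :
    rho l W' (rho l W x) = rho l W x := by
  rw [rho_rho, inf_eq_right.2 h]

theorem rho_bd_rho (l : ι → V) (W : Submodule k V) (x : ExteriorAlgebra k (ι → k)) :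
    rho l W (bd k ι (rho l W x)) = bd k ι (rho l W x) := by
  rw [bd_rho, rho_rho_of_le l le_rfl]

theorem rho_bd_of_fixed (l : ι → V) (W : Submodule k V) (x : ExteriorAlgebra k (ι → k))
    (hx : rho l W x = x) : rho l W (bd k ι x) = bd k ι x := by
  conv_lhs => rw [← hx]
  rw [rho_bd_rho, hx]

omit [Fintype ι] in
theorem fixed_of_le (l : ι → V) {W W' : Submodule k V} (h : W ≤ W')
    (x : ExteriorAlgebra k (ι → k)) (hx : rho l W x = x) : rho l W' x = x := by
  conv_lhs => rw [← hx]
  rw [rho_rho_of_le' l h, hx]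

theorem bd_bd (x : ExteriorAlgebra k (ι → k)) : bd k ι (bd k ι x) = 0 := ct_ct _ _

/-- If no form lies in `W` the boundary of a `W`-supported element is zero. -/
theorem bd_eq_zero_of_bot (l : ι → V) (W : Submodule k V) (hW : ∀ i, l i ∉ W)
    (x : ExteriorAlgebra k (ι → k)) (hx : rho l W x = x) : bd k ι x = 0 := by
  rw [← hx, bd_rho]
  have : dW l W = 0 := by
    ext x
    simp [dW_apply, hW]
  rw [this]
  have h0 : ct (0 : Module.Dual k (ι → k)) x = 0 := by
    simp [ct]
  rw [h0, map_zero]

omit [Fintype ι] in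
theorem algebraMapInv_map (f : (ι → k) →ₗ[k] (ι → k)) (x : ExteriorAlgebra k (ι → k)) :
    (ExteriorAlgebra.algebraMapInv : ExteriorAlgebra k (ι → k) →ₐ[k] k)
      (ExteriorAlgebra.map f x) = ExteriorAlgebra.algebraMapInv x := by
  have : (ExteriorAlgebra.algebraMapInv : ExteriorAlgebra k (ι → k) →ₐ[k] k).comp
      (ExteriorAlgebra.map f) = ExteriorAlgebra.algebraMapInv := by
    ext m
    simp [ExteriorAlgebra.algebraMapInv]
  exact DFunLike.congr_fun this x

/-! ### Unfolding of the kernel -/

theorem S_zero (l : ι → V) (α : ι → K) (J : Fin 0 → V) (ψ : ExteriorAlgebra k (ι → k)) :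
    S l α 0 J ψ = algebraMap k K (ExteriorAlgebra.algebraMapInv ψ) := rfl

theorem S_dep (l : ι → V) (α : ι → K) {r : ℕ} (J : Fin (r + 1) → V)
    (hJ : ¬ LinearIndependent k J) (ψ : ExteriorAlgebra k (ι → k)) :
    S l α (r + 1) J ψ = 0 := by
  rw [S, if_neg hJ]
  rfl

theorem S_succ (l : ι → V) (α : ι → K) {r : ℕ} (J : Fin (r + 1) → V)
    (hJ : LinearIndependent k J) (ψ : ExteriorAlgebra k (ι → k)) :
    S l α (r + 1) J ψ = (al l α (Submodule.span k (Set.range J)))⁻¹ *
      ∑ i : Fin (r + 1), ((-1 : ℤ) ^ (i : ℕ)) •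
        S l α r (J ∘ i.succAbove) (bd k ι (rho l (Submodule.span k (Set.range J)) ψ)) := by
  rw [S, if_pos hJ]
  simp only [LinearMap.smul_apply, LinearMap.sum_apply, smul_eq_mul, LinearMap.coe_comp,
    Function.comp_apply, AlgHom.toLinearMap_apply]

/-- `S` only sees the restriction to the span. -/
theorem S_rho (l : ι → V) (α : ι → K) {r : ℕ} (J : Fin r → V) (W : Submodule k V)
    (hW : Submodule.span k (Set.range J) ≤ W) (ψ : ExteriorAlgebra k (ι → k)) :
    S l α r J (rho l W ψ) = S l α r J ψ := by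
  cases r with
  | zero =>
    rw [S_zero, S_zero]
    congr 1
    exact algebraMapInv_map _ _
  | succ r =>
    by_cases hJ : LinearIndependent k J
    · rw [S_succ l α J hJ, S_succ l α J hJ, rho_rho_of_le l hW]
    · rw [S_dep l α J hJ, S_dep l α J hJ]

/-- Lemma 0. -/
theorem S_bd_zero (l : ι → V) (hl : ∀ i, l i ≠ 0) (α : ι → K) {r : ℕ} (J : Fin r → V)
    (W : Submodule k V) (hW : W ≤ Submodule.span k (Set.range J))
    (ψ : ExteriorAlgebra k (ι → k)) (hψ : rho l W ψ = ψ) :
    S l α r J (bd k ι ψ) = 0 := by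
  have hψ' := fixed_of_le l hW ψ hψ
  cases r with
  | zero =>
    rw [bd_eq_zero_of_bot l _ _ ψ hψ', map_zero]
    intro i hi
    rw [Set.range_eq_empty, Submodule.span_empty, Submodule.mem_bot] at hi
    exact hl i hi
  | succ r =>
    by_cases hJ : LinearIndependent k J
    · rw [S_succ l α J hJ, rho_bd_of_fixed l _ ψ hψ', bd_bd]
      simp
    · rw [S_dep l α J hJ]

/-! ### Linear algebra of spans -/

omit [Fintype ι] in
theorem exchange {G : Submodule k V} {x y : V} (hx : x ∈ G ⊔ Submodule.span k {y})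
    (hx' : x ∉ G) : G ⊔ Submodule.span k {x} = G ⊔ Submodule.span k {y} := by
  obtain ⟨g, hg, z, hz, rfl⟩ := Submodule.mem_sup.1 hx
  obtain ⟨c, rfl⟩ := Submodule.mem_span_singleton.1 hz
  have hc : c ≠ 0 := by
    rintro rfl
    apply hx'
    simpa using hg
  apply le_antisymm
  · refine sup_le le_sup_left ?_
    rw [Submodule.span_singleton_le_iff_mem]
    exact hx
  · refine sup_le le_sup_left ?_
    rw [Submodule.span_singleton_le_iff_mem]
    have h1 : c⁻¹ • (g + c • y) - c⁻¹ • g = y := by
      rw [smul_add, smul_smul, inv_mul_cancel₀ hc, one_smul]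
      abel
    have h2 : c⁻¹ • (g + c • y) - c⁻¹ • g ∈ G ⊔ Submodule.span k {g + c • y} :=
      Submodule.sub_mem _ (Submodule.smul_mem _ _ (Submodule.mem_sup_right
        (Submodule.mem_span_singleton_self _))) (Submodule.smul_mem _ _
        (Submodule.mem_sup_left hg))
    rwa [h1] at h2

omit [Fintype ι] [AddCommGroup V] in
theorem range_succAbove {r : ℕ} (J : Fin (r + 1) → V) (i : Fin (r + 1)) :
    Set.range J = insert (J i) (Set.range (J ∘ i.succAbove)) := by
  ext x
  simp only [Set.mem_range, Set.mem_insert_iff, Function.comp_apply]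
  constructor
  · rintro ⟨j, rfl⟩
    by_cases hj : j = i
    · left; rw [hj]
    · right
      obtain ⟨j', rfl⟩ := Fin.exists_succAbove_eq hj
      exact ⟨j', rfl⟩
  · rintro (rfl | ⟨j, rfl⟩)
    · exact ⟨i, rfl⟩
    · exact ⟨_, rfl⟩

omit [Fintype ι] in
theorem span_succAbove {r : ℕ} (J : Fin (r + 1) → V) (i : Fin (r + 1)) :
    Submodule.span k (Set.range J) =
      Submodule.span k (Set.range (J ∘ i.succAbove)) ⊔ Submodule.span k {J i} := by
  rw [range_succAbove J i, Submodule.span_insert, sup_comm]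

omit [Fintype ι] in
theorem linInd_of_succAbove {r : ℕ} (J : Fin (r + 1) → V) (i : Fin (r + 1))
    (h : LinearIndependent k (J ∘ i.succAbove))
    (hi : J i ∉ Submodule.span k (Set.range (J ∘ i.succAbove))) : LinearIndependent k J := by
  have h1 := (linearIndependent_option' (K := k) (x := J i) (v := J ∘ i.succAbove)).2 ⟨h, hi⟩
  refine (linearIndependent_equiv' (finSuccEquiv' i) ?_).2 h1
  funext j
  by_cases hj : j = i
  · subst hj
    simp
  · obtain ⟨j', rfl⟩ := Fin.exists_succAbove_eq hj
    simp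

/-- Support property. -/
theorem S_supp (l : ι → V) (hl : ∀ i, l i ≠ 0) (α : ι → K) {r : ℕ} (J : Fin r → V)
    (W : Submodule k V) (hJ : ∃ i, J i ∉ W) (ψ : ExteriorAlgebra k (ι → k))
    (hψ : rho l W ψ = ψ) : S l α r J ψ = 0 := by
  induction r generalizing ψ with
  | zero => obtain ⟨i, _⟩ := hJ; exact i.elim0
  | succ r ih =>
    by_cases hI : LinearIndependent k J
    · rw [S_succ l α J hI]
      rw [Finset.sum_eq_zero, mul_zero]
      intro i _
      suffices hs : S l α r (J ∘ i.succAbove)
          (bd k ι (rho l (Submodule.span k (Set.range J)) ψ)) = 0 by rw [hs, smul_zero]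
      set G := Submodule.span k (Set.range J) with hG
      have h1 : rho l G ψ = rho l (G ⊓ W) ψ := by
        rw [← rho_rho, hψ]
      have h2 : rho l (G ⊓ W) (rho l G ψ) = rho l G ψ := by
        rw [h1, rho_rho_of_le l le_rfl]
      by_cases hex : ∃ j, (J ∘ i.succAbove) j ∉ W
      · exact ih (J ∘ i.succAbove) hex _
          (rho_bd_of_fixed l W _ (fixed_of_le l inf_le_right _ h2))
      · push Not at hex
        have hi : J i ∉ W := by
          intro hi
          obtain ⟨j, hj⟩ := hJ
          by_cases hji : j = i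
          · rw [hji] at hj; exact hj hi
          · obtain ⟨j', rfl⟩ := Fin.exists_succAbove_eq hji
            exact hj (hex j')
        refine S_bd_zero l hl α _ (G ⊓ W) ?_ _ h2
        rintro x ⟨hxG, hxW⟩
        have hxG' : x ∈ G := hxG
        rw [hG, span_succAbove J i] at hxG'
        obtain ⟨g, hg, z, hz, rfl⟩ := Submodule.mem_sup.1 hxG'
        obtain ⟨c, rfl⟩ := Submodule.mem_span_singleton.1 hz
        have hgW : g ∈ W := by
          refine (Submodule.span_le.2 ?_) hg
          rintro _ ⟨j, rfl⟩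
          exact hex j
        have hc : c = 0 := by
          by_contra hc
          apply hi
          have h3 : c • J i ∈ W := by
            have := Submodule.sub_mem W hxW hgW
            simpa using this
          exact (Submodule.smul_mem_iff W hc).1 h3
        rw [hc, zero_smul, add_zero]
        exact hg
    · exact S_dep l α J hI ψ

omit [AddCommGroup V] in
/-- Double removal cancels. -/
theorem double_removal {M : Type*} [AddCommGroup M] {r : ℕ} (f : (Fin r → V) → M)
    (C : Fin (r + 2) → V) :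
    ∑ i : Fin (r + 2), ((-1 : ℤ) ^ (i : ℕ)) • ∑ j : Fin (r + 1), ((-1 : ℤ) ^ (j : ℕ)) •
      f ((C ∘ i.succAbove) ∘ j.succAbove) = 0 := by
  simp only [Finset.smul_sum, smul_smul, ← pow_add]
  rw [← Finset.sum_product' (s := Finset.univ) (t := Finset.univ)
    (f := fun (i : Fin (r + 2)) (j : Fin (r + 1)) => ((-1 : ℤ) ^ ((i : ℕ) + (j : ℕ))) •
      f ((C ∘ i.succAbove) ∘ j.succAbove))]
  refine Finset.sum_involution (fun p _ => (p.1.succAbove p.2, p.2.predAbove p.1)) ?_ ?_ ?_ ?_
  · rintro ⟨i, j⟩ _
    simp only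
    have h1 : (C ∘ (i.succAbove j).succAbove) ∘ (j.predAbove i).succAbove =
        (C ∘ i.succAbove) ∘ j.succAbove := by
      funext x
      simp only [Function.comp_apply]
      rw [Fin.succAbove_succAbove_succAbove_predAbove]
    rw [h1, Fin.neg_one_pow_succAbove_add_predAbove, neg_smul, add_neg_cancel]
  · rintro ⟨i, j⟩ _ _ h
    simp only [Prod.mk.injEq] at h
    exact Fin.succAbove_ne i j h.1
  · intro p _
    simp
  · rintro ⟨i, j⟩ _
    simp only [Fin.succAbove_succAbove_predAbove, Fin.predAbove_predAbove_succAbove]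

/-- Orlik-Solomon relation. -/
theorem S_os (l : ι → V) (α : ι → K) {r : ℕ} (C : Fin (r + 1) → V)
    (hC0 : ∀ i, C i ≠ 0) (hC : ¬ LinearIndependent k C) (ψ : ExteriorAlgebra k (ι → k)) :
    ∑ i : Fin (r + 1), ((-1 : ℤ) ^ (i : ℕ)) • S l α r (C ∘ i.succAbove) ψ = 0 := by
  induction r generalizing ψ with
  | zero =>
    exfalso
    apply hC
    exact (linearIndependent_unique_iff (ι := Fin 1) (v := C)).2 (hC0 _)
  | succ r ih =>
    by_cases hex : ∃ i : Fin (r + 2), LinearIndependent k (C ∘ i.succAbove)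
    · obtain ⟨i0, hi0⟩ := hex
      set W := Submodule.span k (Set.range (C ∘ i0.succAbove)) with hW
      have hCi0 : C i0 ∈ W := by
        by_contra hcon
        exact hC (linInd_of_succAbove C i0 hi0 hcon)
      have hCW : ∀ i, C i ∈ W := by
        intro i
        by_cases hi : i = i0
        · rw [hi]; exact hCi0
        · obtain ⟨j, rfl⟩ := Fin.exists_succAbove_eq hi
          exact Submodule.subset_span ⟨j, rfl⟩
      have hspan : ∀ i : Fin (r + 2), LinearIndependent k (C ∘ i.succAbove) →
          Submodule.span k (Set.range (C ∘ i.succAbove)) = W := by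
        intro i hi
        have hle : Submodule.span k (Set.range (C ∘ i.succAbove)) ≤ W := by
          rw [Submodule.span_le]
          rintro _ ⟨j, rfl⟩
          exact hCW _
        have : FiniteDimensional k W := FiniteDimensional.span_of_finite k (Set.finite_range _)
        refine Submodule.eq_of_le_of_finrank_eq hle ?_
        rw [finrank_span_eq_card hi, hW, finrank_span_eq_card hi0]
      have hterm : ∀ i : Fin (r + 2), S l α (r + 1) (C ∘ i.succAbove) ψ =
          (al l α W)⁻¹ * ∑ j : Fin (r + 1), ((-1 : ℤ) ^ (j : ℕ)) •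
            S l α r ((C ∘ i.succAbove) ∘ j.succAbove) (bd k ι (rho l W ψ)) := by
        intro i
        by_cases hi : LinearIndependent k (C ∘ i.succAbove)
        · rw [S_succ l α _ hi, hspan i hi]
        · rw [S_dep l α _ hi, ih (C ∘ i.succAbove) (fun j => hC0 _) hi, mul_zero]
      simp only [hterm]
      have h2 := double_removal (fun J' => S l α r J' (bd k ι (rho l W ψ))) C
      simp only [← mul_smul_comm]
      rw [← Finset.mul_sum, h2, mul_zero]
    · push Not at hex
      refine Finset.sum_eq_zero fun i _ => ?_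
      rw [S_dep l α _ (hex i), smul_zero]

/-! ### Adjunction -/

omit [Fintype ι] [AddCommGroup V] in
theorem cons_comp_zero {r : ℕ} (x : V) (J : Fin r → V) :
    (Fin.cons x J : Fin (r + 1) → V) ∘ (0 : Fin (r + 1)).succAbove = J := by
  funext j
  simp

omit [Fintype ι] [AddCommGroup V] in
theorem cons_comp_succ {r : ℕ} (x : V) (J : Fin (r + 1) → V) (a : Fin (r + 1)) :
    (Fin.cons x J : Fin (r + 2) → V) ∘ (a.succ).succAbove = Fin.cons x (J ∘ a.succAbove) := by
  funext j
  refine Fin.cases ?_ (fun j => ?_) j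
  · simp
  · simp

omit [Fintype ι] in
theorem span_cons {r : ℕ} (x : V) (J : Fin r → V) :
    Submodule.span k (Set.range (Fin.cons x J : Fin (r + 1) → V)) =
      Submodule.span k (Set.range J) ⊔ Submodule.span k {x} := by
  rw [span_succAbove _ 0, cons_comp_zero]
  simp

open Classical in
/-- Grouping of the indices outside `G` by the flats covering `G`. -/
theorem fiber_sum {M : Type*} [AddCommMonoid M] (l : ι → V) (G : Submodule k V) (h : ι → M) :
    ∑ F ∈ (Finset.univ.filter (fun i => l i ∉ G)).image (fun i => G ⊔ Submodule.span k {l i}),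
      ∑ i, (if l i ∈ F ∧ l i ∉ G then h i else 0) = ∑ i, if l i ∉ G then h i else 0 := by
  rw [← Finset.sum_filter (fun i => l i ∉ G) h]
  rw [← Finset.sum_fiberwise_of_maps_to (s := Finset.univ.filter (fun i => l i ∉ G))
    (t := (Finset.univ.filter (fun i => l i ∉ G)).image (fun i => G ⊔ Submodule.span k {l i}))
    (g := fun i => G ⊔ Submodule.span k {l i})
    (fun i hi => Finset.mem_image_of_mem _ hi)]
  refine Finset.sum_congr rfl fun F hF => ?_
  obtain ⟨i0, hi0, rfl⟩ := Finset.mem_image.1 hF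
  rw [← Finset.sum_filter]
  refine Finset.sum_congr ?_ fun _ _ => rfl
  ext i
  simp only [Finset.mem_filter, Finset.mem_univ, true_and]
  constructor
  · rintro ⟨h1, h2⟩
    exact ⟨h2, exchange h1 h2⟩
  · rintro ⟨h1, h2⟩
    refine ⟨?_, h1⟩
    rw [← h2]
    exact Submodule.mem_sup_right (Submodule.mem_span_singleton_self _)

open Classical in
theorem sumDual_split (l : ι → V) (G : Submodule k V) :
    sumDual k ι = dW l G +
      ∑ F ∈ (Finset.univ.filter (fun i => l i ∉ G)).image (fun i => G ⊔ Submodule.span k {l i}),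
        (dW l F - dW l G) := by
  refine LinearMap.ext fun x => ?_
  have h1 := fiber_sum l G x
  rw [LinearMap.add_apply, LinearMap.sum_apply]
  have h2 : ∀ F ∈ (Finset.univ.filter (fun i => l i ∉ G)).image
      (fun i => G ⊔ Submodule.span k {l i}),
      (dW l F - dW l G) x = ∑ i, (if l i ∈ F ∧ l i ∉ G then x i else 0) := by
    intro F hF
    obtain ⟨i0, hi0, rfl⟩ := Finset.mem_image.1 hF
    rw [LinearMap.sub_apply, dW_apply, dW_apply, ← Finset.sum_sub_distrib]
    refine Finset.sum_congr rfl fun i _ => ?_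
    by_cases hG : l i ∈ G
    · have : l i ∈ G ⊔ Submodule.span k {l i0} := Submodule.mem_sup_left hG
      simp [hG, this]
    · simp [hG]
  rw [Finset.sum_congr rfl h2, h1, dW_apply, ← Finset.sum_add_distrib]
  simp only [sumDual, LinearMap.sum_apply, LinearMap.proj_apply]
  refine Finset.sum_congr rfl fun i _ => ?_
  by_cases hG : l i ∈ G <;> simp [hG]

/-- The functional `d ↦ S(J, ρ_G (d ⌟ ψ))`. -/
theorem S_bd_split (l : ι → V) (hl : ∀ i, l i ≠ 0) (α : ι → K) {r : ℕ} (J : Fin r → V)
    (ψ : ExteriorAlgebra k (ι → k)) [DecidablePred fun i => l i ∉ Submodule.span k (Set.range J)]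
    [DecidableEq (Submodule k V)] :
    S l α r J (bd k ι ψ) =
      ∑ F ∈ (Finset.univ.filter (fun i => l i ∉ Submodule.span k (Set.range J))).image
        (fun i => Submodule.span k (Set.range J) ⊔ Submodule.span k {l i}),
        S l α r J (bd k ι (rho l F ψ)) := by
  set G := Submodule.span k (Set.range J) with hG
  let Φ : Module.Dual k (ι → k) →ₗ[k] K := (S l α r J) ∘ₗ (rho l G).toLinearMap ∘ₗ
    ((CliffordAlgebra.contractLeft (Q := (0 : QuadraticForm k (ι → k)))).flip ψ)
  have hΦ : ∀ d, Φ d = S l α r J (rho l G (ct d ψ)) := fun d => rfl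
  have h0 : Φ (dW l G) = 0 := by
    rw [hΦ, ← bd_rho]
    exact S_bd_zero l hl α J G le_rfl _ (rho_rho_of_le l le_rfl _)
  have hF : ∀ F, G ≤ F → Φ (dW l F) = S l α r J (bd k ι (rho l F ψ)) := by
    intro F hGF
    rw [hΦ, bd_rho, ← S_rho l α J G le_rfl (rho l F _), rho_rho_of_le l hGF]
  have hs : S l α r J (bd k ι ψ) = Φ (sumDual k ι) := by
    rw [hΦ, S_rho l α J G le_rfl]
    rfl
  rw [hs, sumDual_split l G, map_add, map_sum, h0, zero_add]
  refine Finset.sum_congr (by
    ext x
    simp only [Finset.mem_image, Finset.mem_filter]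
    exact Iff.rfl) fun F hF' => ?_
  obtain ⟨i0, hi0, rfl⟩ := Finset.mem_image.1 hF'
  rw [map_sub, h0, sub_zero, hF _ le_sup_left]

open Classical in
/-- The core computation, `r = 0`. -/
theorem core_zero (l : ι → V) (hl : ∀ i, l i ≠ 0) (α : ι → K) (J : Fin 0 → V)
    (F : Submodule k V) (χ : ExteriorAlgebra k (ι → k)) :
    ∑ i, (if l i ∈ F ∧ l i ∉ Submodule.span k (Set.range J) then
      α i * ∑ j : Fin 1, ((-1 : ℤ) ^ (j : ℕ)) •
        S l α 0 ((Fin.cons (l i) J : Fin 1 → V) ∘ j.succAbove) χ else 0) =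
      al l α F * S l α 0 J χ := by
  rw [al, Finset.sum_mul]
  refine Finset.sum_congr rfl fun i _ => ?_
  simp [S_zero, hl i]

open Classical in
/-- The core computation, `r + 1`. -/
theorem core_succ (l : ι → V) (hl : ∀ i, l i ≠ 0) (α : ι → K) {r : ℕ} (J : Fin (r + 1) → V)
    (hJ : LinearIndependent k J)
    (F : Submodule k V) (χ : ExteriorAlgebra k (ι → k)) (hχ : rho l F χ = χ)
    (hadj : ∀ J' : Fin r → V, ∑ i, α i * S l α (r + 1) (Fin.cons (l i) J') χ = 0) :
    ∑ i, (if l i ∈ F ∧ l i ∉ Submodule.span k (Set.range J) then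
      α i * ∑ j : Fin (r + 2), ((-1 : ℤ) ^ (j : ℕ)) •
        S l α (r + 1) ((Fin.cons (l i) J : Fin (r + 2) → V) ∘ j.succAbove) χ else 0) =
      al l α F * S l α (r + 1) J χ := by
  set s := S l α (r + 1) J χ with hs
  let T : ι → K := fun i => ∑ a : Fin (r + 1), ((-1 : ℤ) ^ (a : ℕ)) •
    S l α (r + 1) (Fin.cons (l i) (J ∘ a.succAbove)) χ
  have hexp : ∀ i, ∑ j : Fin (r + 2), ((-1 : ℤ) ^ (j : ℕ)) •
        S l α (r + 1) ((Fin.cons (l i) J : Fin (r + 2) → V) ∘ j.succAbove) χ = s - T i := by
    intro i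
    rw [Fin.sum_univ_succ, cons_comp_zero]
    have h1 : ∀ a : Fin (r + 1), ((-1 : ℤ) ^ ((a.succ : Fin (r + 2)) : ℕ)) •
        S l α (r + 1) ((Fin.cons (l i) J : Fin (r + 2) → V) ∘ (a.succ).succAbove) χ =
        - (((-1 : ℤ) ^ (a : ℕ)) • S l α (r + 1) (Fin.cons (l i) (J ∘ a.succAbove)) χ) := by
      intro a
      rw [cons_comp_succ, Fin.val_succ, pow_succ, mul_neg_one, neg_smul]
    rw [Finset.sum_congr rfl fun a _ => h1 a, Finset.sum_neg_distrib]
    simp only [Fin.val_zero, pow_zero, one_smul]
    rw [← sub_eq_add_neg]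
  have hTG : ∀ i, l i ∈ Submodule.span k (Set.range J) → T i = s := by
    intro i hi
    have h1 := S_os l α (Fin.cons (l i) J : Fin (r + 2) → V)
      (by
        intro j
        refine Fin.cases ?_ (fun j => ?_) j
        · simpa using hl i
        · simpa using hJ.ne_zero j)
      (by
        rw [linearIndependent_finCons]
        exact fun h => h.2 hi) χ
    rw [hexp i] at h1
    exact (sub_eq_zero.1 h1).symm
  have hTF : ∀ i, l i ∉ F → T i = 0 := by
    intro i hi
    refine Finset.sum_eq_zero fun a _ => ?_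
    rw [S_supp l hl α _ F ⟨0, by simpa using hi⟩ χ hχ, smul_zero]
  have hTsum : ∑ i, α i * T i = 0 := by
    simp only [T, Finset.mul_sum]
    rw [Finset.sum_comm]
    refine Finset.sum_eq_zero fun a _ => ?_
    simp only [mul_smul_comm]
    rw [← Finset.smul_sum, hadj, smul_zero]
  have hpt : ∀ i, (if l i ∈ F ∧ l i ∉ Submodule.span k (Set.range J) then
      α i * ∑ j : Fin (r + 2), ((-1 : ℤ) ^ (j : ℕ)) •
        S l α (r + 1) ((Fin.cons (l i) J : Fin (r + 2) → V) ∘ j.succAbove) χ else 0) =
      (if l i ∈ F then α i else 0) * s - α i * T i := by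
    intro i
    rw [hexp i]
    by_cases h1 : l i ∈ F
    · by_cases h2 : l i ∈ Submodule.span k (Set.range J)
      · simp [h2, h1, hTG i h2]
      · simp only [h1, h2, not_false_eq_true, and_self, if_true]
        ring
    · simp [h1, hTF i h1]
  rw [Finset.sum_congr rfl fun i _ => hpt i, Finset.sum_sub_distrib, hTsum, sub_zero, al,
    Finset.sum_mul]

open Classical in
theorem adj_of_core (l : ι → V) (hl : ∀ i, l i ≠ 0) (α : ι → K)
    (hα : ∀ W : Submodule k V, (∃ i, l i ∈ W) → al l α W ≠ 0) {r : ℕ} (J : Fin r → V)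
    (hJ : LinearIndependent k J) (ψ : ExteriorAlgebra k (ι → k))
    (hcore : ∀ F : Submodule k V,
      ∑ i, (if l i ∈ F ∧ l i ∉ Submodule.span k (Set.range J) then
      α i * ∑ j : Fin (r + 1), ((-1 : ℤ) ^ (j : ℕ)) •
        S l α r ((Fin.cons (l i) J : Fin (r + 1) → V) ∘ j.succAbove) (bd k ι (rho l F ψ)) else 0) =
      al l α F * S l α r J (bd k ι (rho l F ψ))) :
    ∑ i, α i * S l α (r + 1) (Fin.cons (l i) J) ψ = S l α r J (bd k ι ψ) := by
  set G := Submodule.span k (Set.range J) with hG
  rw [S_bd_split l hl α J ψ]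
  have h1 : ∀ F ∈ (Finset.univ.filter (fun i => l i ∉ G)).image
      (fun i => G ⊔ Submodule.span k {l i}),
      S l α r J (bd k ι (rho l F ψ)) =
        ∑ i, if l i ∈ F ∧ l i ∉ G then α i * S l α (r + 1) (Fin.cons (l i) J) ψ else 0 := by
    intro F hF
    obtain ⟨i0, hi0, hF0⟩ := Finset.mem_image.1 hF
    have hne : al l α F ≠ 0 := by
      refine hα F ⟨i0, ?_⟩
      rw [← hF0]
      exact Submodule.mem_sup_right (Submodule.mem_span_singleton_self _)
    have h2 := hcore F
    have h3 : S l α r J (bd k ι (rho l F ψ)) =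
        (al l α F)⁻¹ * (al l α F * S l α r J (bd k ι (rho l F ψ))) := by
      rw [← mul_assoc, inv_mul_cancel₀ hne, one_mul]
    rw [h3, ← h2, Finset.mul_sum]
    refine Finset.sum_congr rfl fun i _ => ?_
    by_cases hi : l i ∈ F ∧ l i ∉ G
    · rw [if_pos hi, if_pos hi]
      have hind : LinearIndependent k (Fin.cons (l i) J : Fin (r + 1) → V) :=
        linearIndependent_finCons.2 ⟨hJ, hi.2⟩
      have hspan : Submodule.span k (Set.range (Fin.cons (l i) J : Fin (r + 1) → V)) = F := by
        rw [span_cons, ← hG, ← hF0]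
        have h5 := hi.1
        rw [← hF0] at h5
        exact exchange h5 hi.2
      rw [S_succ l α _ hind, hspan]
      ring
    · rw [if_neg hi, if_neg hi, mul_zero]
  have h4 : ∑ i, α i * S l α (r + 1) (Fin.cons (l i) J) ψ =
      ∑ i, if l i ∉ G then α i * S l α (r + 1) (Fin.cons (l i) J) ψ else 0 := by
    refine Finset.sum_congr rfl fun i _ => ?_
    by_cases hi : l i ∈ G
    · rw [if_neg (not_not.2 hi), S_dep, mul_zero]
      rw [linearIndependent_finCons]
      exact fun h => h.2 hi
    · rw [if_pos hi]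
  rw [h4, ← fiber_sum]
  exact (Finset.sum_congr rfl h1).symm

/-- Adjunction. -/
theorem S_adj (l : ι → V) (hl : ∀ i, l i ≠ 0) (α : ι → K)
    (hα : ∀ W : Submodule k V, (∃ i, l i ∈ W) → al l α W ≠ 0) {r : ℕ} (J : Fin r → V)
    (ψ : ExteriorAlgebra k (ι → k)) :
    ∑ i, α i * S l α (r + 1) (Fin.cons (l i) J) ψ = S l α r J (bd k ι ψ) := by
  classical
  induction r generalizing ψ with
  | zero =>
    exact adj_of_core l hl α hα J linearIndependent_empty_type ψ fun F =>
      core_zero l hl α J F _
  | succ r ih =>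
    by_cases hJ : LinearIndependent k J
    · refine adj_of_core l hl α hα J hJ ψ fun F => ?_
      refine core_succ l hl α J hJ F _ (rho_bd_rho l F ψ) fun J' => ?_
      rw [ih, bd_bd, map_zero]
    · rw [S_dep l α J hJ]
      refine Finset.sum_eq_zero fun i _ => ?_
      rw [S_dep, mul_zero]
      rw [linearIndependent_finCons]
      exact fun h => hJ h.1

/-! ### Flags -/

omit [Fintype ι] in
/-- A transversal of a complete flag spans. -/
theorem span_flag (l : ι → V) {r : ℕ} (ch : Fin (r + 1) → Submodule k V)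
    (hbot : ch (Fin.last r) = ⊥)
    (hch : ∀ a : Fin r, ∃ i, l i ∉ ch a.succ ∧
      ch a.castSucc = ch a.succ ⊔ Submodule.span k {l i})
    (e : Fin r → ι) (he : ∀ a, l (e a) ∈ ch a.castSucc ∧ l (e a) ∉ ch a.succ) :
    Submodule.span k (Set.range (l ∘ e)) = ch 0 := by
  induction r with
  | zero =>
    rw [Set.range_eq_empty, Submodule.span_empty]
    exact hbot.symm
  | succ r ih =>
    have h1 := ih (fun a => ch a.succ) hbot (fun a => hch a.succ) (fun a => e a.succ)
      (fun a => he a.succ)
    rw [span_succAbove _ 0]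
    have h2 : (l ∘ e) ∘ (0 : Fin (r + 1)).succAbove = l ∘ fun a => e a.succ := by
      funext j
      simp
    rw [h2, h1]
    obtain ⟨i, hi, hi'⟩ := hch 0
    have h3 := (he 0).1
    rw [hi'] at h3
    change ch (Fin.succ 0) ⊔ Submodule.span k {l (e 0)} = ch (Fin.castSucc 0)
    rw [hi']
    exact exchange h3 (he 0).2

open Classical in
/-- Integrality along a complete flag of flats. -/
theorem S_flag (l : ι → V) (hl : ∀ i, l i ≠ 0) (α : ι → K)
    (hα : ∀ W : Submodule k V, (∃ i, l i ∈ W) → al l α W ≠ 0) {r : ℕ}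
    (ch : Fin (r + 1) → Submodule k V) (hbot : ch (Fin.last r) = ⊥)
    (hch : ∀ a : Fin r, ∃ i, l i ∉ ch a.succ ∧
      ch a.castSucc = ch a.succ ⊔ Submodule.span k {l i})
    (ψ : ExteriorAlgebra k (ι → k)) :
    ∑ e ∈ (Finset.univ : Finset (Fin r → ι)).filter
        (fun e => ∀ a, l (e a) ∈ ch a.castSucc ∧ l (e a) ∉ ch a.succ),
      (∏ a, α (e a)) * S l α r (l ∘ e) ψ ∈ (algebraMap k K).range := by
  induction r generalizing ψ with
  | zero =>
    refine Subring.sum_mem _ fun e _ => ?_
    simp only [Finset.univ_eq_empty, Finset.prod_empty, one_mul, S_zero]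
    exact ⟨_, rfl⟩
  | succ r ih =>
    have h1 := ih (fun a => ch a.succ) hbot (fun a => hch a.succ) (bd k ι (rho l (ch 0) ψ))
    convert h1 using 1
    rw [Finset.sum_filter, Finset.sum_filter,
      ← (Fin.consEquiv (fun _ : Fin (r + 1) => ι)).sum_comp, Fintype.sum_prod_type_right]
    refine Finset.sum_congr rfl fun e' _ => ?_
    by_cases he' : ∀ a : Fin r, l (e' a) ∈ ch a.castSucc.succ ∧ l (e' a) ∉ ch a.succ.succ
    · rw [if_pos he']
      have hspan : Submodule.span k (Set.range (l ∘ e')) = ch (Fin.succ 0) :=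
        span_flag l (fun a => ch a.succ) hbot (fun a => hch a.succ) e' he'
      rw [← S_adj l hl α hα, Finset.mul_sum]
      refine Finset.sum_congr rfl fun i _ => ?_
      have hcomp : l ∘ (Fin.consEquiv (fun _ : Fin (r + 1) => ι)) (i, e') =
          (Fin.cons (l i) (l ∘ e') : Fin (r + 1) → V) := by
        funext j
        refine Fin.cases ?_ (fun j => ?_) j
        · simp [Fin.consEquiv]
        · simp [Fin.consEquiv]
      rw [hcomp]
      have hle : ch (Fin.succ 0) ≤ ch 0 := by
        obtain ⟨i0, _, hi0'⟩ := hch 0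
        change ch (Fin.succ 0) ≤ ch (Fin.castSucc 0)
        rw [hi0']
        exact le_sup_left
      by_cases hi0 : l i ∈ ch 0
      · by_cases hi1 : l i ∈ ch (Fin.succ 0)
        · rw [if_neg (by intro h; exact (h 0).2 hi1), S_dep, mul_zero, mul_zero]
          rw [linearIndependent_finCons, hspan]
          exact fun h => h.2 hi1
        · rw [if_pos, S_rho l α _ (ch 0)]
          · rw [Fin.prod_univ_succ]
            simp only [Fin.consEquiv, Equiv.coe_fn_mk, Fin.cons_zero, Fin.cons_succ]
            ring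
          · rw [span_cons, hspan]
            refine sup_le hle ?_
            rw [Submodule.span_singleton_le_iff_mem]
            exact hi0
          · intro a
            refine Fin.cases ?_ (fun a => ?_) a
            · exact ⟨hi0, hi1⟩
            · exact he' a
      · rw [if_neg (by intro h; exact hi0 (h 0).1), S_supp l hl α _ (ch 0) ⟨0, by simpa using hi0⟩ _
          (rho_rho_of_le l le_rfl _), mul_zero, mul_zero]
    · rw [if_neg he']
      refine Finset.sum_eq_zero fun i _ => ?_
      rw [if_neg]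
      intro h
      apply he'
      intro a
      exact h a.succ

end Pool.Agent.helper61.NDA
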